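import Pool.Agent.H.MP_31f6f1_lc.E

set_option autoImplicit false

namespace Pool.Agent.Results.MP_31f6f1_lc.Poly

open Pool.Agent.Lib.CX Pool.Agent.H.MP_31f6f1_lc

theorem result (s : ℕ) (V : Finset (Fin s → ℚ)) (B : Set (Fin s → ℝ))
    (hB : B = convexHull ℝ ((fun (v : Fin s → ℚ) k => (v k : ℝ)) '' V)) (h : 0 ∈ interior B) :
    ∃ f : List (List ℚ) → List ℕ × List ℕ, PT f ∧ ∀ P L M, Feas P.length L M →
      Feas P.length (f P).1 (f P).2 ∧
      len (fun u v => gauge B (pt s P u - pt s P v)) L + len (fun u v => gauge B (pt s P u - pt s P v)) M ≤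
        len (fun u v => gauge B (pt s P u - pt s P v)) (f P).1 +
          len (fun u v => gauge B (pt s P u - pt s P v)) (f P).2 :=
  main V hB h

end Pool.Agent.Results.MP_31f6f1_lc.Poly
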